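import Mathlib

/-!
# Project SLA (helper637): from densities and a second moment bound to averages (helper344)
-/

set_option autoImplicit false
set_option linter.unusedVariables false

open scoped Classical

namespace Pool.Agent.N344.SLA

open Finset Filter Topology

variable {α : Type} {F : ℕ → Prop} {x : ℕ → α} {f : α → ℝ}

/-- the elements of the family up to `X` -/
noncomputable def Fx (F : ℕ → Prop) (X : ℕ) : Finset ℕ := (Icc 1 X).filter fun n => F n

/-- the number of elements of the family up to `X` -/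
noncomputable def cn (F : ℕ → Prop) (X : ℕ) : ℝ := ((Fx F X).card : ℝ)

/-- the density of the point `a` up to `X` -/
noncomputable def dn (F : ℕ → Prop) (x : ℕ → α) (a : α) (X : ℕ) : ℝ :=
  (((Icc 1 X).filter fun n => F n ∧ x n = a).card : ℝ) / cn F X

/-- the part of the average of `g` over the points in `A` -/
lemma part_eq (g : α → ℝ) (A : Finset α) (X : ℕ) :
    (∑ n ∈ (Fx F X).filter (fun n => x n ∈ A), g (x n)) / cn F X = ∑ a ∈ A, g a * dn F x a X := by
  have h1 : ∑ n ∈ (Fx F X).filter (fun n => x n ∈ A), g (x n) =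
      ∑ a ∈ A, ∑ n ∈ ((Fx F X).filter (fun n => x n ∈ A)).filter (fun n => x n = a), g (x n) := by
    exact (Finset.sum_fiberwise_of_maps_to (g := x) (t := A)
      (fun n hn => (Finset.mem_filter.1 hn).2) (fun n => g (x n))).symm
  rw [h1, Finset.sum_div]
  refine Finset.sum_congr rfl fun a ha => ?_
  have h2 : ((Fx F X).filter (fun n => x n ∈ A)).filter (fun n => x n = a) =
      (Icc 1 X).filter fun n => F n ∧ x n = a := by
    ext n
    simp only [Fx, Finset.mem_filter]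
    constructor
    · rintro ⟨⟨⟨h1, h2⟩, h3⟩, h4⟩
      exact ⟨h1, h2, h4⟩
    · rintro ⟨h1, h2, h4⟩
      exact ⟨⟨⟨h1, h2⟩, h4 ▸ ha⟩, h4⟩
  rw [h2]
  have h3 : ∑ n ∈ (Icc 1 X).filter (fun n => F n ∧ x n = a), g (x n) =
      ∑ n ∈ (Icc 1 X).filter (fun n => F n ∧ x n = a), g a :=
    Finset.sum_congr rfl fun n hn => by rw [(Finset.mem_filter.1 hn).2.2]
  rw [h3, Finset.sum_const, nsmul_eq_mul]
  unfold dn
  ring

/-- Cauchy-Schwarz for the part over a subset -/
lemma cs (g : ℕ → ℝ) (S T : Finset ℕ) (hST : S ⊆ T) {C : ℝ}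
    (hC : ∑ n ∈ T, g n ^ 2 ≤ C * (T.card : ℝ)) (hT : 0 < (T.card : ℝ)) :
    (∑ n ∈ S, |g n|) / (T.card : ℝ) ≤ Real.sqrt (C * ((S.card : ℝ) / (T.card : ℝ))) := by
  apply Real.le_sqrt_of_sq_le
  have h1 : (∑ n ∈ S, |g n|) ^ 2 ≤ (S.card : ℝ) * ∑ n ∈ S, |g n| ^ 2 := sq_sum_le_card_mul_sum_sq
  have h2 : ∑ n ∈ S, |g n| ^ 2 ≤ ∑ n ∈ T, g n ^ 2 := by
    have h3 : ∑ n ∈ S, |g n| ^ 2 = ∑ n ∈ S, g n ^ 2 := Finset.sum_congr rfl fun n _ => sq_abs _
    rw [h3]
    exact Finset.sum_le_sum_of_subset_of_nonneg hST fun n _ _ => sq_nonneg _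
  rw [div_pow, div_le_iff₀ (by positivity)]
  calc (∑ n ∈ S, |g n|) ^ 2 ≤ (S.card : ℝ) * (C * (T.card : ℝ)) :=
        h1.trans (mul_le_mul_of_nonneg_left (h2.trans hC) (Nat.cast_nonneg _))
    _ = C * ((S.card : ℝ) / (T.card : ℝ)) * (T.card : ℝ) ^ 2 := by
        field_simp

lemma part_one (A : Finset α) (X : ℕ) :
    (((Fx F X).filter (fun n => x n ∈ A)).card : ℝ) / cn F X = ∑ a ∈ A, dn F x a X := by
  have h := part_eq (F := F) (x := x) (fun _ => 1) A X
  simp only [Finset.sum_const, nsmul_eq_mul, mul_one, one_mul] at h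
  exact h

/-- the main lemma -/
theorem core (F : ℕ → Prop) (x : ℕ → α) (p f : α → ℝ) (C : ℝ) (hp : ∀ a, 0 ≤ p a)
    (hs : HasSum p 1) (hd : ∀ a, Tendsto (dn F x a) atTop (𝓝 (p a)))
    (hpos : ∀ᶠ X : ℕ in atTop, 0 < cn F X)
    (hC : ∀ᶠ X : ℕ in atTop, ∑ n ∈ Fx F X, (f (x n)) ^ 2 ≤ C * cn F X) :
    Summable (fun a => p a * f a) ∧
    Tendsto (fun X : ℕ => (∑ n ∈ Fx F X, f (x n)) / cn F X) atTop (𝓝 (∑' a, p a * f a)) := by
  have hC0 : 0 ≤ C := by
    obtain ⟨X, h1, h2⟩ := (hpos.and hC).exists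
    by_contra h
    push Not at h
    have h3 : 0 ≤ ∑ n ∈ Fx F X, (f (x n)) ^ 2 := Finset.sum_nonneg fun n _ => sq_nonneg _
    have h4 : C * cn F X < 0 := mul_neg_of_neg_of_pos h h1
    linarith
  have hsum : ∀ (g : α → ℝ) (B : Finset α), Tendsto (fun X => ∑ a ∈ B, g a * dn F x a X) atTop
      (𝓝 (∑ a ∈ B, g a * p a)) := fun g B =>
    tendsto_finsetSum B fun a _ => (hd a).const_mul (g a)
  have hsum1 : ∀ (B : Finset α), Tendsto (fun X => ∑ a ∈ B, dn F x a X) atTop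
      (𝓝 (∑ a ∈ B, p a)) := fun B => tendsto_finsetSum B fun a _ => hd a
  -- finite sums
  have hB : ∀ B : Finset α, ∑ a ∈ B, |f a| * p a ≤ Real.sqrt (C * ∑ a ∈ B, p a) := by
    intro B
    have h1 : Tendsto (fun X => Real.sqrt (C * ∑ a ∈ B, dn F x a X)) atTop
        (𝓝 (Real.sqrt (C * ∑ a ∈ B, p a))) :=
      (Real.continuous_sqrt.tendsto _).comp ((hsum1 B).const_mul C)
    refine le_of_tendsto_of_tendsto (hsum (fun a => |f a|) B) h1 ?_
    filter_upwards [hpos, hC] with X hX1 hX2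
    rw [← part_eq, ← part_one]
    exact cs (fun n => f (x n)) _ _ (Finset.filter_subset _ _) hX2 hX1
  have hle1 : ∀ B : Finset α, ∑ a ∈ B, p a ≤ 1 := fun B => sum_le_hasSum B (fun a _ => hp a) hs
  have habs : Summable fun a => |p a * f a| := by
    refine summable_of_sum_le (c := Real.sqrt C) (fun a => abs_nonneg _) fun B => ?_
    have e1 : ∑ a ∈ B, |p a * f a| = ∑ a ∈ B, |f a| * p a :=
      Finset.sum_congr rfl fun a _ => by rw [abs_mul, abs_of_nonneg (hp a), mul_comm]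
    rw [e1]
    refine (hB B).trans (Real.sqrt_le_sqrt ?_)
    have := hle1 B
    nlinarith
  have hS : Summable fun a => p a * f a := habs.of_abs
  refine ⟨hS, ?_⟩
  obtain ⟨S, hSd⟩ : ∃ S : ℝ, S = ∑' a, p a * f a := ⟨_, rfl⟩
  have hSS : HasSum (fun a => p a * f a) S := by rw [hSd]; exact hS.hasSum
  rw [← hSd]
  -- the tail of the series
  have htail : ∀ A : Finset α, |(∑ a ∈ A, f a * p a) - S| ≤
      Real.sqrt (C * (1 - ∑ a ∈ A, p a)) := by
    intro A
    have h1 : Tendsto (fun B : Finset α => |(∑ a ∈ A, f a * p a) - ∑ a ∈ B, p a * f a|) atTop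
        (𝓝 |(∑ a ∈ A, f a * p a) - S|) := (tendsto_const_nhds.sub hSS).abs
    refine le_of_tendsto h1 ?_
    filter_upwards [eventually_ge_atTop A] with B hAB
    have h2 : ∑ a ∈ B, p a * f a = ∑ a ∈ B \ A, p a * f a + ∑ a ∈ A, p a * f a :=
      (Finset.sum_sdiff hAB).symm
    have h3 : ∑ a ∈ B, p a = ∑ a ∈ B \ A, p a + ∑ a ∈ A, p a := (Finset.sum_sdiff hAB).symm
    have h4 : ∑ a ∈ A, f a * p a = ∑ a ∈ A, p a * f a :=
      Finset.sum_congr rfl fun a _ => mul_comm _ _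
    have h5 : (∑ a ∈ A, f a * p a) - ∑ a ∈ B, p a * f a = -∑ a ∈ B \ A, p a * f a := by
      rw [h2, h4]
      ring
    rw [h5, abs_neg]
    calc |∑ a ∈ B \ A, p a * f a| ≤ ∑ a ∈ B \ A, |p a * f a| := Finset.abs_sum_le_sum_abs _ _
      _ = ∑ a ∈ B \ A, |f a| * p a :=
        Finset.sum_congr rfl fun a _ => by rw [abs_mul, abs_of_nonneg (hp a), mul_comm]
      _ ≤ Real.sqrt (C * ∑ a ∈ B \ A, p a) := hB _
      _ ≤ _ := by
        apply Real.sqrt_le_sqrt
        apply mul_le_mul_of_nonneg_left _ hC0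
        have := hle1 B
        linarith
  rw [Metric.tendsto_nhds]
  intro ε hε
  -- the choice of the finite set
  have hlimA : Tendsto (fun A : Finset α => Real.sqrt (C * (1 - ∑ a ∈ A, p a))) atTop (𝓝 0) := by
    have h1 : Tendsto (fun A : Finset α => C * (1 - ∑ a ∈ A, p a)) atTop (𝓝 (C * (1 - 1))) :=
      (tendsto_const_nhds.sub hs).const_mul C
    have h2 := (Real.continuous_sqrt.tendsto _).comp h1
    rw [sub_self, mul_zero, Real.sqrt_zero] at h2
    exact h2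
  obtain ⟨A, hA⟩ := (hlimA.eventually (gt_mem_nhds (show (0 : ℝ) < ε / 2 by positivity))).exists
  have hU : Tendsto (fun X => Real.sqrt (C * (1 - ∑ a ∈ A, dn F x a X)) +
      |(∑ a ∈ A, f a * dn F x a X) - ∑ a ∈ A, f a * p a| + |(∑ a ∈ A, f a * p a) - S|) atTop
      (𝓝 (Real.sqrt (C * (1 - ∑ a ∈ A, p a)) + |(∑ a ∈ A, f a * p a) - ∑ a ∈ A, f a * p a| +
        |(∑ a ∈ A, f a * p a) - S|)) := by
    have h1 : Tendsto (fun X => Real.sqrt (C * (1 - ∑ a ∈ A, dn F x a X))) atTop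
        (𝓝 (Real.sqrt (C * (1 - ∑ a ∈ A, p a)))) :=
      (Real.continuous_sqrt.tendsto _).comp ((tendsto_const_nhds.sub (hsum1 A)).const_mul C)
    exact (h1.add ((hsum f A).sub_const _).abs).add_const _
  have hlt : Real.sqrt (C * (1 - ∑ a ∈ A, p a)) +
      |(∑ a ∈ A, f a * p a) - ∑ a ∈ A, f a * p a| + |(∑ a ∈ A, f a * p a) - S| < ε := by
    rw [sub_self, abs_zero, add_zero]
    have := htail A
    linarith
  filter_upwards [hpos, hC, hU.eventually (gt_mem_nhds hlt)] with X hX1 hX2 hX3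
  rw [Real.dist_eq]
  refine lt_of_le_of_lt ?_ hX3
  -- the splitting
  have hsplit : (∑ n ∈ Fx F X, f (x n)) / cn F X = ∑ a ∈ A, f a * dn F x a X +
      (∑ n ∈ (Fx F X).filter (fun n => ¬ x n ∈ A), f (x n)) / cn F X := by
    rw [← part_eq, ← add_div, Finset.sum_filter_add_sum_filter_not]
  have hcard : (((Fx F X).filter (fun n => ¬ x n ∈ A)).card : ℝ) / cn F X =
      1 - ∑ a ∈ A, dn F x a X := by
    rw [← part_one]
    have h1 : (((Fx F X).filter (fun n => x n ∈ A)).card : ℝ) +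
        (((Fx F X).filter (fun n => ¬ x n ∈ A)).card : ℝ) = cn F X := by
      unfold cn
      exact_mod_cast Finset.card_filter_add_card_filter_not (s := Fx F X) (fun n => x n ∈ A)
    rw [eq_sub_iff_add_eq, ← add_div, add_comm, h1, div_self hX1.ne']
  have hout : |(∑ n ∈ (Fx F X).filter (fun n => ¬ x n ∈ A), f (x n)) / cn F X| ≤
      Real.sqrt (C * (1 - ∑ a ∈ A, dn F x a X)) := by
    rw [← hcard, abs_div, abs_of_pos hX1]
    refine le_trans ?_ (cs (fun n => f (x n)) _ _ (Finset.filter_subset _ _) hX2 hX1)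
    exact div_le_div_of_nonneg_right (Finset.abs_sum_le_sum_abs _ _) hX1.le
  rw [hsplit]
  have e1 : (∑ a ∈ A, f a * dn F x a X +
      (∑ n ∈ (Fx F X).filter (fun n => ¬ x n ∈ A), f (x n)) / cn F X) - S =
      (∑ n ∈ (Fx F X).filter (fun n => ¬ x n ∈ A), f (x n)) / cn F X +
      ((∑ a ∈ A, f a * dn F x a X) - ∑ a ∈ A, f a * p a) + ((∑ a ∈ A, f a * p a) - S) := by ring
  rw [e1]
  refine (abs_add_le _ _).trans (add_le_add ((abs_add_le _ _).trans (add_le_add hout le_rfl)) le_rfl)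

end Pool.Agent.N344.SLA
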