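import Pool.Agent.N637.SLM.Stm5
import Pool.Agent.N344.SLA.Core

/-!
# Project SLA (helper637), AVL (helper344)
-/

set_option autoImplicit false

open scoped Classical

namespace Pool.Agent.N344.SLA

/-- **AVL** -/
theorem t_AVL : Pool.Agent.N637.SLM.S_AVL := by
  intro α _ F x p f C h1 h2 h3 h4 h5
  exact core F x p f C h1 h2 h3 h4 h5

end Pool.Agent.N344.SLA
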